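import Pool.Agent.Lib.MP_4850ea_gt.GK.Main

open scoped Manifold ContDiff

namespace Pool.Agent.Results.MP_4850ea_gt.GKMBound

/-- A positive monotone Hamiltonian GKM space of dimension `2 n` has at most
`(2 n + 1) (n + 1) ^ (2 n)` fixed points. -/
theorem result (n r : ℕ) (M : Type) [TopologicalSpace M] [T2Space M] [CompactSpace M]
    [ConnectedSpace M] [ChartedSpace (EuclideanSpace ℝ (Fin (2 * n))) M]
    [IsManifold (modelWithCornersSelf ℝ (EuclideanSpace ℝ (Fin (2 * n)))) ((⊤ : ℕ∞) : WithTop ℕ∞) M]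
    (H : GK4850.HamAction r (EuclideanSpace ℝ (Fin (2 * n))) M) (lam : ℝ) (hlam : 0 < lam)
    (hfin : H.fixed.Finite) (hgkm : H.IsGKM n) (hmono : H.IsMonotone n lam) :
    H.fixed.ncard ≤ (2 * n + 1) * (n + 1) ^ (2 * n) :=
  GK4850.main r n _ M H lam hfin hgkm hlam hmono

end Pool.Agent.Results.MP_4850ea_gt.GKMBound
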